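import Pool.Agent.Lib.MP_b414a3_an.BD.Defs

/-! MP_b414a3_an, board BD: the gradient of a strongly convex analytic function has a local analytic inverse. -/

set_option autoImplicit false

namespace Pool.Agent.Lib.MP_b414a3_an.BD

open scoped InnerProductSpace Topology Gradient

open Filter

variable {H : Type*} [NormedAddCommGroup H] [InnerProductSpace ℝ H]

/-- the function of one variable -/
private theorem line_deriv [CompleteSpace H] {f : H → ℝ} {x u : H} {c t : ℝ}
    (hf : DifferentiableAt ℝ f (x + t • u)) :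
    HasDerivAt (fun s : ℝ => f (x + s • u) - c * ‖x + s • u‖ ^ 2)
      (⟪gradient f (x + t • u), u⟫_ℝ - 2 * c * ⟪x + t • u, u⟫_ℝ) t := by
  have hl : HasDerivAt (fun s : ℝ => x + s • u) u t := by
    have h1 := ((hasDerivAt_id t).smul_const u).const_add x
    simpa using h1
  have h1 : HasDerivAt (fun s : ℝ => f (x + s • u)) (fderiv ℝ f (x + t • u) u) t :=
    hf.hasFDerivAt.comp_hasDerivAt t hl
  have h2 : HasDerivAt (fun s : ℝ => ‖x + s • u‖ ^ 2) (2 * ⟪x + t • u, u⟫_ℝ) t := hl.norm_sq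
  have h3 := h1.sub (h2.const_mul c)
  have h4 : ⟪gradient f (x + t • u), u⟫_ℝ = fderiv ℝ f (x + t • u) u := inner_gradient_left
  rw [h4]
  have h5 : fderiv ℝ f (x + t • u) u - 2 * c * ⟪x + t • u, u⟫_ℝ
      = fderiv ℝ f (x + t • u) u - c * (2 * ⟪x + t • u, u⟫_ℝ) := by ring
  rw [h5]
  exact h3

private theorem line_convex {f : H → ℝ} {c : ℝ} (x u : H)
    (hcv : ConvexOn ℝ Set.univ (fun z => f z - c * ‖z‖ ^ 2)) :
    ConvexOn ℝ Set.univ (fun s : ℝ => f (x + s • u) - c * ‖x + s • u‖ ^ 2) := by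
  refine ⟨convex_univ, fun s _ t _ p r hp hr hpr => ?_⟩
  have h1 := hcv.2 (Set.mem_univ (x + s • u)) (Set.mem_univ (x + t • u)) hp hr hpr
  have h2 : p • (x + s • u) + r • (x + t • u) = x + (p • s + r • t) • u := by
    have h3 : x = (p + r) • x := by rw [hpr, one_smul]
    conv_rhs => rw [h3]
    simp only [smul_add, smul_smul, add_smul, smul_eq_mul]
    abel
  rw [h2] at h1
  exact h1

/-- the gradient is strongly monotone along a line -/
private theorem mono_line [CompleteSpace H] {f : H → ℝ} {x u : H} {c t : ℝ} (ht : 0 < t)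
    (h0 : DifferentiableAt ℝ f x) (hf : DifferentiableAt ℝ f (x + t • u))
    (hcv : ConvexOn ℝ Set.univ (fun z => f z - c * ‖z‖ ^ 2)) :
    ⟪gradient f x, u⟫_ℝ + 2 * c * t * ‖u‖ ^ 2 ≤ ⟪gradient f (x + t • u), u⟫_ℝ := by
  have hc := line_convex x u hcv
  have h0' : DifferentiableAt ℝ f (x + (0 : ℝ) • u) := by simpa using h0
  have d0 := line_deriv (c := c) h0'
  have d1 := line_deriv (c := c) hf
  have h1 := hc.le_slope_of_hasDerivAt (Set.mem_univ 0) (Set.mem_univ t) ht d0
  have h2 := hc.slope_le_of_hasDerivAt (Set.mem_univ 0) (Set.mem_univ t) ht d1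
  have h3 := h1.trans h2
  rw [zero_smul, add_zero, inner_add_left, real_inner_smul_left, real_inner_self_eq_norm_sq] at h3
  linarith

/-- J8 -/
theorem local_inverse [CompleteSpace H] {f : H → ℝ} {x : H} {c : ℝ} (hc : 0 < c) (hf : AnalyticAt ℝ f x)
    (hcv : ConvexOn ℝ Set.univ (fun z => f z - c * ‖z‖ ^ 2)) :
    ∃ g : H → H, AnalyticAt ℝ g (gradient f x) ∧ g (gradient f x) = x ∧
      ∀ᶠ y in 𝓝 (gradient f x), DifferentiableAt ℝ f (g y) ∧ gradient f (g y) = y := by
  have hev : ∀ᶠ z in 𝓝 x, AnalyticAt ℝ f z := hf.eventually_analyticAt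
  -- the gradient is analytic
  have hF : AnalyticAt ℝ (gradient f) x := by
    have h1 : AnalyticAt ℝ (fderiv ℝ f) x := hf.fderiv
    have h2 : AnalyticAt ℝ (fun z => (InnerProductSpace.toDual ℝ H).symm (fderiv ℝ f z)) x :=
      ((InnerProductSpace.toDual ℝ H).symm.toContinuousLinearEquiv.toContinuousLinearMap.analyticAt
        (fderiv ℝ f x)).comp h1
    exact h2
  have hS := hF.hasStrictFDerivAt
  set A : H →L[ℝ] H := fderiv ℝ (gradient f) x with hA
  -- coercivity
  have hco : ∀ u : H, 2 * c * ‖u‖ ^ 2 ≤ ⟪A u, u⟫_ℝ := by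
    intro u
    have hl : HasDerivAt (fun s : ℝ => x + s • u) u 0 := by
      have h1 := ((hasDerivAt_id (0 : ℝ)).smul_const u).const_add x
      simpa using h1
    have hx0 : x + (0 : ℝ) • u = x := by simp
    have h1 : HasDerivAt (fun s : ℝ => gradient f (x + s • u)) (A u) 0 := by
      have h2 : HasFDerivAt (gradient f) A (x + (0 : ℝ) • u) := by
        rw [hx0]
        exact hS.hasFDerivAt
      exact h2.comp_hasDerivAt 0 hl
    have h2 : HasDerivAt (fun s : ℝ => ⟪gradient f (x + s • u), u⟫_ℝ) (⟪A u, u⟫_ℝ) 0 := by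
      have h3 := h1.inner ℝ (hasDerivAt_const (0 : ℝ) u)
      simpa using h3
    have h3 := h2.tendsto_slope_zero_right
    have hcont : Tendsto (fun s : ℝ => x + s • u) (𝓝[>] 0) (𝓝 x) := by
      have h4 : Tendsto (fun s : ℝ => x + s • u) (𝓝 0) (𝓝 (x + (0 : ℝ) • u)) :=
        hl.continuousAt
      rw [hx0] at h4
      exact h4.mono_left nhdsWithin_le_nhds
    refine ge_of_tendsto h3 ?_
    filter_upwards [hcont.eventually hev, self_mem_nhdsWithin] with t ht ht0
    have ht1 : (0 : ℝ) < t := ht0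
    have h4 := mono_line ht1 hf.differentiableAt ht.differentiableAt hcv
    rw [zero_add, hx0, smul_eq_mul, le_inv_mul_iff₀ ht1]
    linarith
  -- the derivative is invertible
  let B : H →L[ℝ] H →L[ℝ] ℝ := (innerSL ℝ).comp A
  have hB : ∀ u v, B u v = ⟪A u, v⟫_ℝ := fun u v => rfl
  have hcB : IsCoercive B := by
    refine ⟨2 * c, by linarith, fun u => ?_⟩
    rw [hB]
    have := hco u
    nlinarith
  let e : H ≃L[ℝ] H := hcB.continuousLinearEquivOfBilin
  have he : (e : H →L[ℝ] H) = A := by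
    ext1 u
    refine ext_inner_right ℝ fun v => ?_
    have h1 : ⟪e u, v⟫_ℝ = B u v := hcB.continuousLinearEquivOfBilin_apply u v
    exact h1.trans (hB u v)
  have hS' : HasStrictFDerivAt (gradient f) (e : H →L[ℝ] H) x := by
    rw [he]
    exact hS
  refine ⟨hS'.localInverse (gradient f) e x, ?_, hS'.localInverse_apply_image, ?_⟩
  · have h1 : fderiv ℝ (hS'.toOpenPartialHomeomorph (gradient f)) x = e := by
      rw [hS'.toOpenPartialHomeomorph_coe]
      exact he.symm
    exact (hS'.toOpenPartialHomeomorph (gradient f)).analyticAt_symm'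
      hS'.mem_toOpenPartialHomeomorph_source hF h1
  · filter_upwards [hS'.eventually_right_inverse, hS'.localInverse_tendsto.eventually hev] with y h1 h2
    exact ⟨h2.differentiableAt, h1⟩

end Pool.Agent.Lib.MP_b414a3_an.BD
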