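import Pool.Agent.Lib.MP_b414a3_an.BD.Defs

set_option autoImplicit false

namespace Pool.Agent.Lib.MP_b414a3_an.BD

open scoped InnerProductSpace Topology Gradient

variable {H : Type*} [NormedAddCommGroup H] [InnerProductSpace ℝ H]

/-- the dual norm of the gradient of half the square of the norm -/
theorem dual_value [CompleteSpace H] {N : H → ℝ} {a b : ℝ} (h : IsNorm N a b) {x y : H} (hx : x ≠ 0)
    (hd : DifferentiableAt ℝ (fun z => N z ^ 2 / 2) x)
    (hg : gradient (fun z => N z ^ 2 / 2) x = y) : dual N y = N x := by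
  have h1 : HasFDerivAt (fun z => N z ^ 2 / 2) (InnerProductSpace.toDual ℝ H y) x := by
    have := hd.hasGradientAt
    rw [hg] at this
    exact this.hasFDerivAt
  have hl : ∀ w : H, HasDerivAt (fun t : ℝ => N (x + t • w) ^ 2 / 2) ⟪y, w⟫_ℝ 0 := by
    intro w
    have h2 : HasDerivAt (fun t : ℝ => x + t • w) w 0 := by
      simpa using ((hasDerivAt_id (0 : ℝ)).smul_const w).const_add x
    have h3 : HasFDerivAt (fun z => N z ^ 2 / 2) (InnerProductSpace.toDual ℝ H y)
        (x + (0 : ℝ) • w) := by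
      simpa using h1
    exact h3.comp_hasDerivAt (0 : ℝ) h2
  have hNx := h.pos_of_ne hx
  -- Euler
  have h4 : ⟪y, x⟫_ℝ = N x ^ 2 := by
    have h5 : (fun t : ℝ => N (x + t • x) ^ 2 / 2) = fun t : ℝ => (1 + t) ^ 2 * (N x ^ 2 / 2) := by
      funext t
      have h6 : x + t • x = (1 + t) • x := by rw [add_smul, one_smul]
      rw [h6, h.smul, mul_pow, sq_abs]
      ring
    have h7 := hl x
    rw [h5] at h7
    have h8 : HasDerivAt (fun t : ℝ => (1 + t) ^ 2 * (N x ^ 2 / 2)) (N x ^ 2) 0 := by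
      have h9 : HasDerivAt (fun t : ℝ => 1 + t) 1 0 := (hasDerivAt_id (0 : ℝ)).const_add 1
      have h10 := (h9.pow 2).mul_const (N x ^ 2 / 2)
      have h11 : ((2 : ℕ) : ℝ) * (1 + (0 : ℝ)) ^ (2 - 1) * 1 * (N x ^ 2 / 2) = N x ^ 2 := by
        have h12 : (1 + (0 : ℝ)) ^ (2 - 1) = 1 := by norm_num
        rw [h12]
        push_cast
        ring
      rw [h11] at h10
      exact h10
    exact h7.unique h8
  -- the upper bound
  have h5 : ∀ w : H, N w ≤ 1 → ⟪w, y⟫_ℝ ≤ N x := by
    intro w hw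
    rw [real_inner_comm]
    have h6 := (hl w).tendsto_slope_zero_right
    have h7 : Filter.Tendsto (fun t : ℝ => N x + t / 2) (𝓝[>] 0) (𝓝 (N x)) := by
      have h8 : Filter.Tendsto (fun t : ℝ => N x + t / 2) (𝓝 0) (𝓝 (N x + 0 / 2)) :=
        (continuous_const.add (continuous_id.div_const 2)).tendsto 0
      rw [zero_div, add_zero] at h8
      exact h8.mono_left nhdsWithin_le_nhds
    refine le_of_tendsto_of_tendsto h6 h7 ?_
    filter_upwards [self_mem_nhdsWithin] with t ht
    have ht' : (0 : ℝ) < t := ht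
    rw [zero_add, zero_smul, add_zero, smul_eq_mul, inv_mul_le_iff₀ ht']
    have h8 : N (x + t • w) ≤ N x + t := by
      refine (h.add x (t • w)).trans (add_le_add le_rfl ?_)
      rw [h.smul, abs_of_pos ht']
      nlinarith
    have h9 := h.nonneg (x + t • w)
    nlinarith
  refine le_antisymm (h.dual_le h5) ?_
  have h6 : N ((N x)⁻¹ • x) ≤ 1 := by
    rw [h.smul, abs_of_pos (inv_pos.2 hNx), inv_mul_cancel₀ hNx.ne']
  have h7 := h.inner_le_dual h6 y
  rw [real_inner_smul_left, real_inner_comm, h4, sq, ← mul_assoc, inv_mul_cancel₀ hNx.ne', one_mul] at h7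
  exact h7

end Pool.Agent.Lib.MP_b414a3_an.BD
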