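import Pool.Agent.Lib.MP_b414a3_an.BD.Mini
import Pool.Agent.Lib.MP_b414a3_an.BD.Inv
import Pool.Agent.Lib.MP_b414a3_an.BD.Value

/-! MP_b414a3_an, board BD: the dual of an analytic, uniformly convex norm is analytic. -/

set_option autoImplicit false

namespace Pool.Agent.Lib.MP_b414a3_an.BD

open scoped InnerProductSpace Topology Gradient

variable {H : Type*} [NormedAddCommGroup H] [InnerProductSpace ℝ H]

theorem analytic_dual [CompleteSpace H] {N : H → ℝ} {a b c : ℝ} (h : IsNorm N a b) (hc : 0 < c)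
    (hN : AnalyticOnNhd ℝ N {x | x ≠ 0})
    (hcv : ConvexOn ℝ Set.univ (fun x => N x ^ 2 - c * ‖x‖ ^ 2)) :
    AnalyticOnNhd ℝ (dual N) {y | y ≠ 0} := by
  intro y hy
  have hy : y ≠ 0 := hy
  obtain ⟨f, hf⟩ : ∃ f : H → ℝ, f = fun z => N z ^ 2 / 2 := ⟨_, rfl⟩
  have hfz : ∀ z, f z = N z ^ 2 / 2 := fun z => by rw [hf]
  have hfcv : ConvexOn ℝ Set.univ (fun z => f z - c / 2 * ‖z‖ ^ 2) := by
    have h1 := hcv.smul (c := (1 / 2 : ℝ)) (by norm_num)
    have h2 : (fun z => f z - c / 2 * ‖z‖ ^ 2) = fun z => (1 / 2 : ℝ) • (N z ^ 2 - c * ‖z‖ ^ 2) := by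
      funext z
      rw [hfz, smul_eq_mul]
      ring
    rw [h2]
    exact h1
  have hfc : Continuous f := by
    rw [hf]
    exact (h.continuous.pow 2).div_const 2
  obtain ⟨x, hx⟩ : ∃ x, ∀ z, f x - ⟪x, y⟫_ℝ ≤ f z - ⟪z, y⟫_ℝ := by
    refine exists_min (g := fun z => f z - ⟪z, y⟫_ℝ) (c := c / 8) (by positivity) ?_ ?_ ?_
    · exact hfc.sub (continuous_id.inner continuous_const)
    · intro u v
      have h1 := hfcv.2 (Set.mem_univ u) (Set.mem_univ v) (show (0 : ℝ) ≤ 1 / 2 by norm_num)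
        (show (0 : ℝ) ≤ 1 / 2 by norm_num) (by norm_num)
      simp only [smul_eq_mul] at h1
      rw [← smul_add] at h1
      have h2 : ‖(1 / 2 : ℝ) • (u + v)‖ ^ 2 = (‖u‖ ^ 2 + ‖v‖ ^ 2) / 2 - ‖u - v‖ ^ 2 / 4 := by
        have h3 := parallelogram_law_with_norm ℝ u v
        rw [norm_smul, Real.norm_of_nonneg (by norm_num : (0 : ℝ) ≤ 1 / 2)]
        nlinarith
      rw [h2] at h1
      have h3 : ⟪(1 / 2 : ℝ) • (u + v), y⟫_ℝ = (⟪u, y⟫_ℝ + ⟪v, y⟫_ℝ) / 2 := by
        rw [real_inner_smul_left, inner_add_left]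
        ring
      show f ((1 / 2 : ℝ) • (u + v)) - ⟪(1 / 2 : ℝ) • (u + v), y⟫_ℝ ≤ _
      rw [h3]
      linarith
    · refine ⟨-(dual N y ^ 2 / 2), ?_⟩
      rintro _ ⟨z, rfl⟩
      have h1 := h.inner_le z y
      show -(dual N y ^ 2 / 2) ≤ f z - ⟪z, y⟫_ℝ
      rw [hfz]
      nlinarith [sq_nonneg (N z - dual N y)]
  have hx0 : x ≠ 0 := by
    rintro rfl
    have h0 := h.pos_of_ne hy
    have hy0 : 0 < ‖y‖ := norm_pos_iff.2 hy
    have h1 := hx ((‖y‖ ^ 2 / N y ^ 2) • y)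
    rw [hfz, hfz, h.zero, inner_zero_left, h.smul, real_inner_smul_left,
      real_inner_self_eq_norm_sq, abs_of_pos (by positivity)] at h1
    have h2 : (‖y‖ ^ 2 / N y ^ 2 * N y) ^ 2 / 2 - ‖y‖ ^ 2 / N y ^ 2 * ‖y‖ ^ 2
        = - (‖y‖ ^ 4 / N y ^ 2 / 2) := by
      field_simp
      ring
    rw [h2] at h1
    have h3 : 0 < ‖y‖ ^ 4 / N y ^ 2 / 2 := by positivity
    norm_num at h1
    linarith
  have hfa : AnalyticAt ℝ f x := by
    rw [hf]
    exact ((hN x hx0).pow 2).div_const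
  have hgx : gradient f x = y := by
    have h1 := hfa.differentiableAt.hasGradientAt
    have h2 : HasFDerivAt (fun z => f z - ⟪z, y⟫_ℝ)
        ((InnerProductSpace.toDual ℝ H) (gradient f x) - (InnerProductSpace.toDual ℝ H) y) x := by
      refine h1.hasFDerivAt.sub ?_
      have h3 := ((InnerProductSpace.toDual ℝ H) y).hasFDerivAt (x := x)
      refine h3.congr_of_eventuallyEq (Filter.Eventually.of_forall fun z => ?_)
      simp [real_inner_comm]
    have h3 : IsLocalMin (fun z => f z - ⟪z, y⟫_ℝ) x := Filter.Eventually.of_forall hx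
    have h4 := h3.hasFDerivAt_eq_zero h2
    rw [sub_eq_zero] at h4
    exact (InnerProductSpace.toDual ℝ H).injective h4
  obtain ⟨g, hg1, hg2, hg3⟩ := local_inverse (half_pos hc) hfa hfcv
  rw [hgx] at hg1 hg2 hg3
  have h1 : ∀ᶠ y' in 𝓝 y, g y' ≠ 0 := by
    apply hg1.continuousAt.eventually_ne
    rw [hg2]
    exact hx0
  have h2 : AnalyticAt ℝ (fun y' => N (g y')) y := by
    have h3 : AnalyticAt ℝ N (g y) := by
      rw [hg2]
      exact hN x hx0
    exact h3.comp hg1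
  refine h2.congr ?_
  filter_upwards [hg3, h1] with y' h3 h4
  refine (dual_value h h4 ?_ ?_).symm
  · rw [← hf]
    exact h3.1
  · rw [← hf]
    exact h3.2

end Pool.Agent.Lib.MP_b414a3_an.BD
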