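import Pool.Agent.Lib.MP_b414a3_an.BD.Defs

set_option autoImplicit false

namespace Pool.Agent.Lib.MP_b414a3_an.BD

open scoped InnerProductSpace Topology Gradient

variable {H : Type*} [NormedAddCommGroup H] [InnerProductSpace ℝ H]

/-- Hahn-Banach: a functional below the norm which attains it at a given point -/
private theorem exists_functional {N : H → ℝ} {a b : ℝ} (h : IsNorm N a b) (x : H) (hx : x ≠ 0) :
    ∃ g : H →ₗ[ℝ] ℝ, g x = N x ∧ ∀ z, g z ≤ N z := by
  obtain ⟨g, hg1, hg2⟩ := exists_extension_of_le_sublinear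
    (LinearPMap.mkSpanSingleton x (N x) hx) N
    (fun c hc z => by rw [h.smul, abs_of_pos hc]) h.add (by
      rintro ⟨z, hz⟩
      obtain ⟨c, rfl⟩ := Submodule.mem_span_singleton.1 hz
      have h1 : (LinearPMap.mkSpanSingleton x (N x) hx) ⟨c • x, hz⟩ = c • N x :=
        LinearPMap.mkSpanSingleton'_apply _ _ _ _ _
      rw [h1, smul_eq_mul]
      change c * N x ≤ N (c • x)
      rw [h.smul]
      exact mul_le_mul_of_nonneg_right (le_abs_self c) (h.nonneg x))
  refine ⟨g, ?_, hg2⟩
  have h2 := hg1 ⟨x, Submodule.mem_span_singleton_self x⟩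
  exact h2.trans (LinearPMap.mkSpanSingleton_apply ℝ ℝ hx (N x))

/-- the bidual norm is the norm -/
theorem bidual [CompleteSpace H] {N : H → ℝ} {a b : ℝ} (h : IsNorm N a b) (x : H) :
    dual (dual N) x = N x := by
  apply le_antisymm
  · refine h.dual.dual_le fun y hy => ?_
    have h1 := h.inner_le x y
    rw [real_inner_comm]
    have h2 := h.nonneg x
    nlinarith
  · by_cases hx : x = 0
    · subst hx
      rw [h.zero]
      exact h.dual.dual_nonneg 0
    obtain ⟨g, hg1, hg2⟩ := exists_functional h x hx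
    have hb : ∀ z, ‖g z‖ ≤ b * ‖z‖ := by
      intro z
      rw [Real.norm_eq_abs, abs_le]
      have h1 := (hg2 z).trans (h.upper z)
      have h2 := (hg2 (-z)).trans (h.upper (-z))
      rw [map_neg, norm_neg] at h2
      constructor <;> linarith
    let G : StrongDual ℝ H := g.mkContinuous b hb
    have hG : ∀ z, ⟪(InnerProductSpace.toDual ℝ H).symm G, z⟫_ℝ = g z := by
      intro z
      rw [InnerProductSpace.toDual_symm_apply]
      rfl
    have h1 : dual N ((InnerProductSpace.toDual ℝ H).symm G) ≤ 1 := by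
      refine h.dual_le fun z hz => ?_
      rw [real_inner_comm, hG]
      exact (hg2 z).trans hz
    have h2 := h.dual.inner_le_dual h1 x
    rw [hG, hg1] at h2
    exact h2

end Pool.Agent.Lib.MP_b414a3_an.BD
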