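import Pool.Agent.Lib.MP_b414a3_an.BD.Defs

set_option autoImplicit false

namespace Pool.Agent.Lib.MP_b414a3_an.BD

open scoped InnerProductSpace Topology Gradient

variable {H : Type*} [NormedAddCommGroup H] [InnerProductSpace ℝ H]

private theorem close_aux {N M : H → ℝ} {a b a' b' e : ℝ} (h : IsNorm N a b) (h' : IsNorm M a' b')
    (he : 0 ≤ e) (hNM : ∀ x, |N x - M x| ≤ e * ‖x‖) (y : H) :
    dual N y ≤ dual M y + e / (a * a') * ‖y‖ := by
  refine h.dual_le fun x hx => ?_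
  have ha := h.pos
  have ha' := h'.pos
  have h1 : ‖x‖ ≤ a⁻¹ := by
    rw [← one_div, le_div_iff₀ ha]
    have := h.lower x
    linarith
  have h2 : M x ≤ 1 + e * a⁻¹ := by
    have h3 := (abs_le.1 (hNM x)).1
    have h4 := mul_le_mul_of_nonneg_left h1 he
    linarith
  have h5 := h'.inner_le x y
  have h6 := h'.dual_nonneg y
  have h7 := h'.dual.upper y
  have h8 : M x * dual M y ≤ (1 + e * a⁻¹) * dual M y := mul_le_mul_of_nonneg_right h2 h6
  have h9 : e * a⁻¹ * dual M y ≤ e * a⁻¹ * (a'⁻¹ * ‖y‖) :=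
    mul_le_mul_of_nonneg_left h7 (mul_nonneg he (inv_nonneg.2 ha.le))
  have h10 : e / (a * a') * ‖y‖ = e * a⁻¹ * (a'⁻¹ * ‖y‖) := by
    rw [div_eq_mul_inv, mul_inv]
    ring
  rw [h10]
  linarith

theorem dual_close {N M : H → ℝ} {a b a' b' e : ℝ} (h : IsNorm N a b) (h' : IsNorm M a' b')
    (he : 0 ≤ e) (hNM : ∀ x, |N x - M x| ≤ e * ‖x‖) (y : H) :
    |dual N y - dual M y| ≤ e / (a * a') * ‖y‖ := by
  have h1 := close_aux h h' he hNM y
  have h2 := close_aux h' h he (fun x => by rw [abs_sub_comm]; exact hNM x) y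
  rw [mul_comm a' a] at h2
  rw [abs_le]
  constructor <;> linarith

end Pool.Agent.Lib.MP_b414a3_an.BD
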