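import Mathlib

/-! MP_b414a3_an, board BD: norms of a Hilbert space and their dual norms. -/

set_option autoImplicit false

namespace Pool.Agent.Lib.MP_b414a3_an.BD

open scoped InnerProductSpace Topology Gradient

variable {H : Type*} [NormedAddCommGroup H] [InnerProductSpace ℝ H]

/-- `N` is an equivalent norm of `H`, with the bounds `a` and `b`. -/
structure IsNorm (N : H → ℝ) (a b : ℝ) : Prop where
  add : ∀ x y, N (x + y) ≤ N x + N y
  smul : ∀ (c : ℝ) (x : H), N (c • x) = |c| * N x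
  pos : 0 < a
  posb : 0 < b
  lower : ∀ x, a * ‖x‖ ≤ N x
  upper : ∀ x, N x ≤ b * ‖x‖

/-- The dual norm; `H` is identified with its dual by the inner product. -/
noncomputable def dual (N : H → ℝ) (y : H) : ℝ := sSup {t : ℝ | ∃ x : H, N x ≤ 1 ∧ t = ⟪x, y⟫_ℝ}

/-- adding a multiple of the square of the Hilbert norm -/
noncomputable def reg (d : ℝ) (N : H → ℝ) (x : H) : ℝ := Real.sqrt (N x ^ 2 + d ^ 2 * ‖x‖ ^ 2)

variable {N : H → ℝ} {a b : ℝ}

theorem IsNorm.nonneg (h : IsNorm N a b) (x : H) : 0 ≤ N x :=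
  (mul_nonneg h.pos.le (norm_nonneg x)).trans (h.lower x)

theorem IsNorm.zero (h : IsNorm N a b) : N 0 = 0 := by
  have := h.smul 0 0
  simpa using this

theorem IsNorm.neg (h : IsNorm N a b) (x : H) : N (-x) = N x := by
  have := h.smul (-1) x
  simpa using this

theorem IsNorm.pos_of_ne (h : IsNorm N a b) {x : H} (hx : x ≠ 0) : 0 < N x :=
  (mul_pos h.pos (norm_pos_iff.2 hx)).trans_le (h.lower x)

theorem IsNorm.convexOn (h : IsNorm N a b) : ConvexOn ℝ Set.univ N := by
  refine ⟨convex_univ, fun x _ y _ s t hs ht _ => ?_⟩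
  have h1 := h.add (s • x) (t • y)
  rw [h.smul, h.smul, abs_of_nonneg hs, abs_of_nonneg ht] at h1
  exact h1

theorem IsNorm.continuous (h : IsNorm N a b) : Continuous N := by
  rw [Metric.continuous_iff]
  intro x e he
  refine ⟨e / b, div_pos he h.posb, fun y hy => ?_⟩
  have h1 : N y - N x ≤ N (y - x) := by
    have := h.add x (y - x)
    rw [add_sub_cancel] at this
    linarith
  have h2 : N x - N y ≤ N (y - x) := by
    have := h.add y (x - y)
    rw [add_sub_cancel] at this
    have h3 := h.neg (y - x)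
    rw [neg_sub] at h3
    linarith
  rw [Real.dist_eq]
  have h3 := h.upper (y - x)
  rw [dist_eq_norm] at hy
  have h4 : b * ‖y - x‖ < e := by
    rw [lt_div_iff₀ h.posb] at hy
    linarith
  rw [abs_lt]
  constructor <;> linarith

theorem IsNorm.bdd (h : IsNorm N a b) (y : H) :
    BddAbove {t : ℝ | ∃ x : H, N x ≤ 1 ∧ t = ⟪x, y⟫_ℝ} := by
  refine ⟨a⁻¹ * ‖y‖, ?_⟩
  rintro t ⟨x, hx, rfl⟩
  have h1 : ‖x‖ ≤ a⁻¹ := by
    rw [← one_div, le_div_iff₀ h.pos]
    have := h.lower x
    linarith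
  exact (real_inner_le_norm x y).trans (mul_le_mul_of_nonneg_right h1 (norm_nonneg y))

theorem IsNorm.inner_le_dual (h : IsNorm N a b) {x : H} (hx : N x ≤ 1) (y : H) :
    ⟪x, y⟫_ℝ ≤ dual N y := le_csSup (h.bdd y) ⟨x, hx, rfl⟩

theorem IsNorm.dual_nonneg (h : IsNorm N a b) (y : H) : 0 ≤ dual N y := by
  have := h.inner_le_dual (x := 0) (by rw [h.zero]; norm_num) y
  simpa using this

/-- the basic inequality -/
theorem IsNorm.inner_le (h : IsNorm N a b) (x y : H) : ⟪x, y⟫_ℝ ≤ N x * dual N y := by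
  by_cases hx : x = 0
  · subst hx
    simp [h.zero]
  have h0 := h.pos_of_ne hx
  have h1 : N ((N x)⁻¹ • x) ≤ 1 := by
    rw [h.smul, abs_of_pos (inv_pos.2 h0), inv_mul_cancel₀ h0.ne']
  have h2 := h.inner_le_dual h1 y
  rw [real_inner_smul_left, inv_mul_le_iff₀ h0] at h2
  exact h2

/-- to bound the dual norm -/
theorem IsNorm.dual_le (h : IsNorm N a b) {y : H} {t : ℝ} (ht : ∀ x, N x ≤ 1 → ⟪x, y⟫_ℝ ≤ t) :
    dual N y ≤ t := by
  refine csSup_le ⟨0, 0, by rw [h.zero]; norm_num, by simp⟩ ?_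
  rintro s ⟨x, hx, rfl⟩
  exact ht x hx

/-- the dual norm is a norm -/
theorem IsNorm.dual (h : IsNorm N a b) : IsNorm (BD.dual N) b⁻¹ a⁻¹ where
  add x y := by
    refine h.dual_le fun z hz => ?_
    rw [inner_add_right]
    exact add_le_add (h.inner_le_dual hz x) (h.inner_le_dual hz y)
  smul c x := by
    by_cases hc : c = 0
    · subst hc
      have h1 : BD.dual N (0 : H) = 0 := by
        apply le_antisymm
        · exact h.dual_le fun z _ => by simp
        · exact h.dual_nonneg 0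
      simp [h1]
    have key : ∀ (c : ℝ) (x : H), c ≠ 0 → BD.dual N (c • x) ≤ |c| * BD.dual N x := by
      intro c x hc
      refine h.dual_le fun z hz => ?_
      rw [real_inner_smul_right]
      rcases lt_or_gt_of_ne hc with hc' | hc'
      · rw [abs_of_neg hc']
        have h1 : N (-z) ≤ 1 := by rw [h.neg]; exact hz
        have h2 := h.inner_le_dual h1 x
        rw [inner_neg_left] at h2
        nlinarith
      · rw [abs_of_pos hc']
        exact mul_le_mul_of_nonneg_left (h.inner_le_dual hz x) hc'.le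
    refine le_antisymm (key c x hc) ?_
    have h1 := key c⁻¹ (c • x) (inv_ne_zero hc)
    rw [inv_smul_smul₀ hc, abs_inv] at h1
    have h2 : 0 < |c| := abs_pos.2 hc
    calc |c| * BD.dual N x ≤ |c| * (|c|⁻¹ * BD.dual N (c • x)) := mul_le_mul_of_nonneg_left h1 h2.le
      _ = BD.dual N (c • x) := by rw [← mul_assoc, mul_inv_cancel₀ h2.ne', one_mul]
  pos := inv_pos.2 h.posb
  posb := inv_pos.2 h.pos
  lower y := by
    by_cases hy : y = 0
    · subst hy
      simpa using h.dual_nonneg 0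
    have h0 : 0 < ‖y‖ := norm_pos_iff.2 hy
    have h1 : N ((b * ‖y‖)⁻¹ • y) ≤ 1 := by
      rw [h.smul, abs_of_pos (inv_pos.2 (mul_pos h.posb h0)), inv_mul_le_iff₀ (mul_pos h.posb h0),
        mul_one]
      exact h.upper y
    have h2 := h.inner_le_dual h1 y
    rw [real_inner_smul_left, real_inner_self_eq_norm_sq] at h2
    calc b⁻¹ * ‖y‖ = (b * ‖y‖)⁻¹ * ‖y‖ ^ 2 := by
          rw [mul_inv]
          field_simp
      _ ≤ _ := h2
  upper y := by
    refine h.dual_le fun x hx => ?_
    have h1 : ‖x‖ ≤ a⁻¹ := by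
      rw [← one_div, le_div_iff₀ h.pos]
      have := h.lower x
      linarith
    exact (real_inner_le_norm x y).trans (mul_le_mul_of_nonneg_right h1 (norm_nonneg y))

end Pool.Agent.Lib.MP_b414a3_an.BD
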