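import Pool.Agent.Lib.MP_b414a3_an.BD.Defs

/-! MP_b414a3_an, board BD, module Reg: adding a multiple of the square of the Hilbert norm. -/

set_option autoImplicit false

namespace Pool.Agent.Lib.MP_b414a3_an.BD

open scoped InnerProductSpace Topology Gradient

variable {H : Type*} [NormedAddCommGroup H] [InnerProductSpace ℝ H]

omit [InnerProductSpace ℝ H] in
theorem reg_sq (N : H → ℝ) (d : ℝ) (x : H) : reg d N x ^ 2 = N x ^ 2 + d ^ 2 * ‖x‖ ^ 2 := by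
  unfold reg
  rw [Real.sq_sqrt]
  positivity

omit [InnerProductSpace ℝ H] in
theorem reg_nonneg (N : H → ℝ) (d : ℝ) (x : H) : 0 ≤ reg d N x := Real.sqrt_nonneg _

theorem le_reg {N : H → ℝ} {a b : ℝ} (h : IsNorm N a b) (d : ℝ) (x : H) : N x ≤ reg d N x := by
  unfold reg
  apply Real.le_sqrt_of_sq_le
  nlinarith [mul_nonneg (sq_nonneg d) (sq_nonneg ‖x‖)]

theorem reg_le {N : H → ℝ} {a b d : ℝ} (h : IsNorm N a b) (hd : 0 < d) (x : H) :
    reg d N x ≤ N x + d * ‖x‖ := by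
  unfold reg
  have h1 := h.nonneg x
  have h2 : 0 ≤ d * ‖x‖ := mul_nonneg hd.le (norm_nonneg x)
  rw [Real.sqrt_le_left (by positivity)]
  nlinarith [mul_nonneg h1 h2]

theorem reg_add {N : H → ℝ} {a b d : ℝ} (h : IsNorm N a b) (hd : 0 < d) (x y : H) :
    reg d N (x + y) ≤ reg d N x + reg d N y := by
  have hx := reg_nonneg N d x
  have hy := reg_nonneg N d y
  have hNx := h.nonneg x
  have hNy := h.nonneg y
  have hNxy := h.nonneg (x + y)
  have hn : ‖x + y‖ ≤ ‖x‖ + ‖y‖ := norm_add_le x y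
  have hcs : N x * N y + d ^ 2 * (‖x‖ * ‖y‖) ≤ reg d N x * reg d N y := by
    apply le_of_sq_le_sq _ (mul_nonneg hx hy)
    rw [mul_pow, reg_sq, reg_sq]
    nlinarith [sq_nonneg (d * (N x * ‖y‖ - N y * ‖x‖))]
  apply le_of_sq_le_sq _ (add_nonneg hx hy)
  rw [reg_sq]
  have e1 : (reg d N x + reg d N y) ^ 2 = (N x ^ 2 + d ^ 2 * ‖x‖ ^ 2) + (N y ^ 2 + d ^ 2 * ‖y‖ ^ 2)
      + 2 * (reg d N x * reg d N y) := by
    rw [← reg_sq N d x, ← reg_sq N d y]; ring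
  rw [e1]
  have e2 : N (x + y) ^ 2 ≤ (N x + N y) ^ 2 := pow_le_pow_left₀ hNxy (h.add x y) 2
  have e3 : ‖x + y‖ ^ 2 ≤ (‖x‖ + ‖y‖) ^ 2 := pow_le_pow_left₀ (norm_nonneg _) hn 2
  have e4 : d ^ 2 * ‖x + y‖ ^ 2 ≤ d ^ 2 * (‖x‖ + ‖y‖) ^ 2 := mul_le_mul_of_nonneg_left e3 (sq_nonneg d)
  nlinarith

theorem reg_isNorm {N : H → ℝ} {a b d : ℝ} (h : IsNorm N a b) (hd : 0 < d) :
    IsNorm (reg d N) a (b + d) where
  add x y := reg_add h hd x y
  smul c x := by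
    unfold reg
    rw [h.smul, norm_smul, Real.norm_eq_abs]
    have e : (|c| * N x) ^ 2 + d ^ 2 * (|c| * ‖x‖) ^ 2 = |c| ^ 2 * (N x ^ 2 + d ^ 2 * ‖x‖ ^ 2) := by ring
    rw [e, Real.sqrt_mul (by positivity), Real.sqrt_sq (abs_nonneg c)]
  pos := h.pos
  posb := add_pos h.posb hd
  lower x := (h.lower x).trans (le_reg h d x)
  upper x := by
    have h1 := reg_le h hd x
    have h2 := h.upper x
    nlinarith

theorem reg_close {N : H → ℝ} {a b d : ℝ} (h : IsNorm N a b) (hd : 0 < d) (x : H) :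
    |N x - reg d N x| ≤ d * ‖x‖ := by
  have h1 := reg_le h hd x
  have h2 := le_reg h d x
  rw [abs_sub_comm, abs_of_nonneg (by linarith)]
  linarith

theorem reg_analytic {N : H → ℝ} {a b d : ℝ} (h : IsNorm N a b) (hd : 0 < d)
    (hN : AnalyticOnNhd ℝ N {x | x ≠ 0}) : AnalyticOnNhd ℝ (reg d N) {x | x ≠ 0} := by
  intro x hx
  have h1 : AnalyticAt ℝ N x := hN x hx
  have h2 : AnalyticAt ℝ (fun z : H => ‖z‖ ^ 2) x := by
    have h3 : AnalyticAt ℝ (fun z : H => ⟪z, z⟫_ℝ) x := by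
      have h4 : AnalyticAt ℝ (fun z : H => (innerSL ℝ z) z) x :=
        AnalyticAt.comp₂ (h := fun p : H × H => (innerSL ℝ p.1) p.2)
          ((innerSL ℝ : H →L[ℝ] H →L[ℝ] ℝ).analyticAt_bilinear (x, x)) analyticAt_id analyticAt_id
      exact h4
    simpa [real_inner_self_eq_norm_sq] using h3
  have h5 : AnalyticAt ℝ (fun z : H => N z ^ 2 + d ^ 2 * ‖z‖ ^ 2) x :=
    (h1.pow 2).add (analyticAt_const.mul h2)
  have h6 : 0 < N x ^ 2 + d ^ 2 * ‖x‖ ^ 2 := by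
    have := h.pos_of_ne hx
    positivity
  have h7 : AnalyticAt ℝ Real.sqrt (N x ^ 2 + d ^ 2 * ‖x‖ ^ 2) := by
    have h8 : AnalyticAt ℝ (fun t : ℝ => Real.exp (Real.log t * (1 / 2 : ℝ))) (N x ^ 2 + d ^ 2 * ‖x‖ ^ 2) := by
      exact ((analyticAt_log h6).mul analyticAt_const).rexp
    refine h8.congr ?_
    filter_upwards [lt_mem_nhds h6] with t ht
    rw [Real.sqrt_eq_rpow, Real.rpow_def_of_pos ht]
  exact AnalyticAt.comp_of_eq h7 h5 rfl

theorem sq_convex {N : H → ℝ} {a b : ℝ} (h : IsNorm N a b) :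
    ConvexOn ℝ Set.univ (fun x => N x ^ 2) :=
  h.convexOn.pow (fun x _ => h.nonneg x) 2

end Pool.Agent.Lib.MP_b414a3_an.BD
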