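import Pool.Agent.Lib.MP_b414a3_an.BD.Sup
set_option autoImplicit false
namespace Pool.Agent.Lib.MP_b414a3_an.BD
open scoped InnerProductSpace Topology Gradient
variable {H : Type*} [NormedAddCommGroup H] [InnerProductSpace ℝ H]

private theorem key_ineq (x₁ x₂ y₁ y₂ : H) {c s t : ℝ} (hc : 0 < c) (hs : 0 ≤ s) (ht : 0 ≤ t)
    (hst : s + t = 1) :
    s * (2 * ⟪x₁, y₁⟫_ℝ) + t * (2 * ⟪x₂, y₂⟫_ℝ) ≤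
      2 * ⟪s • x₁ + t • x₂, s • y₁ + t • y₂⟫_ℝ - c * ‖s • x₁ + t • x₂‖ ^ 2 +
        s * (c * ‖x₁‖ ^ 2) + t * (c * ‖x₂‖ ^ 2) + s * (c⁻¹ * ‖y₁‖ ^ 2) + t * (c⁻¹ * ‖y₂‖ ^ 2) -
        c⁻¹ * ‖s • y₁ + t • y₂‖ ^ 2 := by
  have e1 : ‖(y₁ - y₂) - c • (x₁ - x₂)‖ ^ 2 = ‖y₁‖ ^ 2 + ‖y₂‖ ^ 2 - 2 * ⟪y₁, y₂⟫_ℝ
      - 2 * c * (⟪x₁, y₁⟫_ℝ - ⟪x₂, y₁⟫_ℝ - ⟪x₁, y₂⟫_ℝ + ⟪x₂, y₂⟫_ℝ)
      + c ^ 2 * (‖x₁‖ ^ 2 + ‖x₂‖ ^ 2 - 2 * ⟪x₁, x₂⟫_ℝ) := by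
    rw [← real_inner_self_eq_norm_sq, ← real_inner_self_eq_norm_sq, ← real_inner_self_eq_norm_sq,
      ← real_inner_self_eq_norm_sq, ← real_inner_self_eq_norm_sq]
    simp only [inner_sub_left, inner_sub_right, real_inner_smul_left, real_inner_smul_right]
    rw [real_inner_comm x₁ y₁, real_inner_comm x₂ y₁, real_inner_comm x₁ y₂,
      real_inner_comm x₂ y₂, real_inner_comm y₁ y₂, real_inner_comm x₁ x₂]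
    ring
  have e2 : ‖s • x₁ + t • x₂‖ ^ 2 = s ^ 2 * ‖x₁‖ ^ 2 + t ^ 2 * ‖x₂‖ ^ 2
      + 2 * s * t * ⟪x₁, x₂⟫_ℝ := by
    rw [← real_inner_self_eq_norm_sq, ← real_inner_self_eq_norm_sq, ← real_inner_self_eq_norm_sq]
    simp only [inner_add_left, inner_add_right, real_inner_smul_left, real_inner_smul_right]
    rw [real_inner_comm x₁ x₂]
    ring
  have e3 : ‖s • y₁ + t • y₂‖ ^ 2 = s ^ 2 * ‖y₁‖ ^ 2 + t ^ 2 * ‖y₂‖ ^ 2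
      + 2 * s * t * ⟪y₁, y₂⟫_ℝ := by
    rw [← real_inner_self_eq_norm_sq, ← real_inner_self_eq_norm_sq, ← real_inner_self_eq_norm_sq]
    simp only [inner_add_left, inner_add_right, real_inner_smul_left, real_inner_smul_right]
    rw [real_inner_comm y₁ y₂]
    ring
  have e4 : ⟪s • x₁ + t • x₂, s • y₁ + t • y₂⟫_ℝ = s ^ 2 * ⟪x₁, y₁⟫_ℝ + s * t * ⟪x₁, y₂⟫_ℝ
      + s * t * ⟪x₂, y₁⟫_ℝ + t ^ 2 * ⟪x₂, y₂⟫_ℝ := by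
    simp only [inner_add_left, inner_add_right, real_inner_smul_left, real_inner_smul_right]
    ring
  have e5 : 0 ≤ c⁻¹ * (s * t * ‖(y₁ - y₂) - c • (x₁ - x₂)‖ ^ 2) := by positivity
  rw [e1] at e5
  rw [e2, e3, e4]
  have ht' : t = 1 - s := by linarith
  subst ht'
  have hcc : c⁻¹ * c = 1 := inv_mul_cancel₀ hc.ne'
  have e6 : c⁻¹ * (s * (1 - s) * (‖y₁‖ ^ 2 + ‖y₂‖ ^ 2 - 2 * ⟪y₁, y₂⟫_ℝ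
      - 2 * c * (⟪x₁, y₁⟫_ℝ - ⟪x₂, y₁⟫_ℝ - ⟪x₁, y₂⟫_ℝ + ⟪x₂, y₂⟫_ℝ)
      + c ^ 2 * (‖x₁‖ ^ 2 + ‖x₂‖ ^ 2 - 2 * ⟪x₁, x₂⟫_ℝ))) =
      s * (1 - s) * (c⁻¹ * (‖y₁‖ ^ 2 + ‖y₂‖ ^ 2 - 2 * ⟪y₁, y₂⟫_ℝ)
      - 2 * (⟪x₁, y₁⟫_ℝ - ⟪x₂, y₁⟫_ℝ - ⟪x₁, y₂⟫_ℝ + ⟪x₂, y₂⟫_ℝ)
      + c * (‖x₁‖ ^ 2 + ‖x₂‖ ^ 2 - 2 * ⟪x₁, x₂⟫_ℝ)) := by
    field_simp
  rw [e6] at e5
  linarith

theorem dual_smooth {N : H → ℝ} {a b c : ℝ} (h : IsNorm N a b) (hc : 0 < c)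
    (hN : ConvexOn ℝ Set.univ (fun x => N x ^ 2 - c * ‖x‖ ^ 2)) :
    ConvexOn ℝ Set.univ (fun y => c⁻¹ * ‖y‖ ^ 2 - dual N y ^ 2) := by
  refine ⟨convex_univ, ?_⟩
  intro y₁ _ y₂ _ s t hs ht hst
  simp only [smul_eq_mul]
  rcases hs.lt_or_eq with hs' | hs'
  swap
  · subst hs'
    have : t = 1 := by linarith
    subst this
    simp
  rcases ht.lt_or_eq with ht' | ht'
  swap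
  · subst ht'
    have : s = 1 := by linarith
    subst this
    simp
  set y := s • y₁ + t • y₂ with hy
  have main : ∀ x₁ x₂ : H, s * (2 * ⟪x₁, y₁⟫_ℝ - N x₁ ^ 2) + t * (2 * ⟪x₂, y₂⟫_ℝ - N x₂ ^ 2) ≤
      dual N y ^ 2 + s * (c⁻¹ * ‖y₁‖ ^ 2) + t * (c⁻¹ * ‖y₂‖ ^ 2) - c⁻¹ * ‖y‖ ^ 2 := by
    intro x₁ x₂
    have h1 : 2 * ⟪s • x₁ + t • x₂, y⟫_ℝ - N (s • x₁ + t • x₂) ^ 2 ≤ dual N y ^ 2 :=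
      (isLUB_dual h y).1 ⟨s • x₁ + t • x₂, rfl⟩
    have h2 := hN.2 (Set.mem_univ x₁) (Set.mem_univ x₂) hs ht hst
    simp only [smul_eq_mul] at h2
    have h3 := key_ineq x₁ x₂ y₁ y₂ hc hs ht hst
    rw [← hy] at h3
    linarith
  have s1 : ∀ x₂ : H, s * dual N y₁ ^ 2 + t * (2 * ⟪x₂, y₂⟫_ℝ - N x₂ ^ 2) ≤
      dual N y ^ 2 + s * (c⁻¹ * ‖y₁‖ ^ 2) + t * (c⁻¹ * ‖y₂‖ ^ 2) - c⁻¹ * ‖y‖ ^ 2 := by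
    intro x₂
    have h1 : dual N y₁ ^ 2 ≤ (dual N y ^ 2 + s * (c⁻¹ * ‖y₁‖ ^ 2) + t * (c⁻¹ * ‖y₂‖ ^ 2)
        - c⁻¹ * ‖y‖ ^ 2 - t * (2 * ⟪x₂, y₂⟫_ℝ - N x₂ ^ 2)) / s := by
      refine (isLUB_dual h y₁).2 ?_
      rintro _ ⟨x₁, rfl⟩
      show 2 * ⟪x₁, y₁⟫_ℝ - N x₁ ^ 2 ≤ _
      rw [le_div_iff₀ hs']
      have := main x₁ x₂
      linarith
    rw [le_div_iff₀ hs'] at h1
    linarith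
  have s2 : dual N y₂ ^ 2 ≤ (dual N y ^ 2 + s * (c⁻¹ * ‖y₁‖ ^ 2) + t * (c⁻¹ * ‖y₂‖ ^ 2)
      - c⁻¹ * ‖y‖ ^ 2 - s * dual N y₁ ^ 2) / t := by
    refine (isLUB_dual h y₂).2 ?_
    rintro _ ⟨x₂, rfl⟩
    show 2 * ⟪x₂, y₂⟫_ℝ - N x₂ ^ 2 ≤ _
    rw [le_div_iff₀ ht']
    have := s1 x₂
    linarith
  rw [le_div_iff₀ ht'] at s2
  linarith

end Pool.Agent.Lib.MP_b414a3_an.BD
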