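import Pool.Agent.Lib.MP_b414a3_an.BD.Sup

/-! Board BD, job J6: the dual of a smooth norm is strongly convex. -/

set_option autoImplicit false

namespace Pool.Agent.Lib.MP_b414a3_an.BD

open scoped InnerProductSpace Topology Gradient

variable {H : Type*} [NormedAddCommGroup H] [InnerProductSpace ℝ H]

theorem dual_strong {N : H → ℝ} {a b C : ℝ} (h : IsNorm N a b) (hC : 0 < C)
    (hN : ConvexOn ℝ Set.univ (fun x => C * ‖x‖ ^ 2 - N x ^ 2)) :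
    ConvexOn ℝ Set.univ (fun y => dual N y ^ 2 - C⁻¹ * ‖y‖ ^ 2) := by
  have hid : ∀ x y z : H, C • x = y - z →
      2 * ⟪x, y⟫_ℝ - N x ^ 2 = (C * ‖x‖ ^ 2 - N x ^ 2) - C⁻¹ * ‖z‖ ^ 2 + C⁻¹ * ‖y‖ ^ 2 := by
    intro x y z hz
    have hz' : z = y - C • x := by rw [hz]; abel
    rw [hz', @norm_sub_sq_real, real_inner_smul_right, norm_smul, Real.norm_eq_abs, abs_of_pos hC,
      real_inner_comm]
    field_simp
    ring
  refine ⟨convex_univ, fun y₁ _ y₂ _ s t hs ht hst => ?_⟩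
  have key : dual N (s • y₁ + t • y₂) ^ 2 ≤
      s * (dual N y₁ ^ 2 - C⁻¹ * ‖y₁‖ ^ 2) + t * (dual N y₂ ^ 2 - C⁻¹ * ‖y₂‖ ^ 2)
        + C⁻¹ * ‖s • y₁ + t • y₂‖ ^ 2 := by
    refine (isLUB_dual h _).2 ?_
    rintro r ⟨x, rfl⟩
    set y := s • y₁ + t • y₂ with hy
    set z := y - C • x with hz
    have hx₁ : C • (C⁻¹ • (y₁ - z)) = y₁ - z := smul_inv_smul₀ hC.ne' _
    have hx₂ : C • (C⁻¹ • (y₂ - z)) = y₂ - z := smul_inv_smul₀ hC.ne' _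
    have hx : x = s • (C⁻¹ • (y₁ - z)) + t • (C⁻¹ • (y₂ - z)) := by
      have h1 : C • x = s • (y₁ - z) + t • (y₂ - z) := by
        have h2 : ∀ w : H, s • (y₁ - w) + t • (y₂ - w) = s • y₁ + t • y₂ - (s + t) • w := by
          intro w
          rw [smul_sub, smul_sub, add_smul]; abel
        rw [h2, hst, one_smul, hz, ← hy]; abel
      have h3 : x = C⁻¹ • (C • x) := (inv_smul_smul₀ hC.ne' x).symm
      rw [h3, h1, smul_add, smul_comm C⁻¹ s, smul_comm C⁻¹ t]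
    have e0 := hid x y z (by rw [hz]; abel)
    have e1 := hid _ y₁ z hx₁
    have e2 := hid _ y₂ z hx₂
    have l1 : 2 * ⟪C⁻¹ • (y₁ - z), y₁⟫_ℝ - N (C⁻¹ • (y₁ - z)) ^ 2 ≤ dual N y₁ ^ 2 :=
      (isLUB_dual h y₁).1 ⟨_, rfl⟩
    have l2 : 2 * ⟪C⁻¹ • (y₂ - z), y₂⟫_ℝ - N (C⁻¹ • (y₂ - z)) ^ 2 ≤ dual N y₂ ^ 2 :=
      (isLUB_dual h y₂).1 ⟨_, rfl⟩
    have hc := hN.2 (Set.mem_univ (C⁻¹ • (y₁ - z))) (Set.mem_univ (C⁻¹ • (y₂ - z))) hs ht hst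
    rw [← hx] at hc
    simp only [smul_eq_mul] at hc
    show 2 * ⟪x, y⟫_ℝ - N x ^ 2 ≤ _
    rw [e0]
    rw [e1] at l1
    rw [e2] at l2
    have m1 := mul_le_mul_of_nonneg_left l1 hs
    have m2 := mul_le_mul_of_nonneg_left l2 ht
    have hz2 : C⁻¹ * ‖z‖ ^ 2 = s * (C⁻¹ * ‖z‖ ^ 2) + t * (C⁻¹ * ‖z‖ ^ 2) := by
      rw [← add_mul, hst, one_mul]
    linarith
  simp only [smul_eq_mul]
  linarith

end Pool.Agent.Lib.MP_b414a3_an.BD
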