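import Pool.Agent.Lib.MP_b414a3_an.BD.AnDual
import Pool.Agent.Lib.MP_b414a3_an.BD.Bidual
import Pool.Agent.Lib.MP_b414a3_an.BD.Close
import Pool.Agent.Lib.MP_b414a3_an.BD.Smooth
import Pool.Agent.Lib.MP_b414a3_an.BD.Strong
import Pool.Agent.Lib.MP_b414a3_an.BD.Reg
import Pool.Agent.Lib.MP_b414a3_an.GA.NMain

/-! MP_b414a3_an, board BD: the two-sided approximation. -/

set_option autoImplicit false

namespace Pool.Agent.Lib.MP_b414a3_an.BD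

open scoped InnerProductSpace Topology Gradient

variable {H : Type*} [NormedAddCommGroup H] [InnerProductSpace ℝ H]

theorem IsNorm.rebound {N M : H → ℝ} {a b a' b' e : ℝ} (h : IsNorm N a b) (h' : IsNorm M a' b')
    (he : e ≤ a / 2) (hNM : ∀ x, |N x - M x| ≤ e * ‖x‖) : IsNorm M (a / 2) b' where
  add := h'.add
  smul := h'.smul
  pos := half_pos h.pos
  posb := h'.posb
  lower x := by
    have h1 := (abs_le.1 (hNM x)).2
    have h2 := h.lower x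
    have h3 := mul_le_mul_of_nonneg_right he (norm_nonneg x)
    linarith
  upper := h'.upper

/-- one step: an analytic norm is made uniformly convex; its dual is then analytic -/
theorem step [CompleteSpace H] {N M : H → ℝ} {a b a' b' e : ℝ} (h : IsNorm N a b)
    (h' : IsNorm M a' b') (he : 0 < e) (hea : e ≤ a / 2) (hNM : ∀ x, |N x - M x| ≤ e / 2 * ‖x‖)
    (hM : AnalyticOnNhd ℝ M {x | x ≠ 0}) :
    ∃ P b'', IsNorm P (a / 2) b'' ∧ (∀ x, |N x - P x| ≤ e * ‖x‖) ∧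
      AnalyticOnNhd ℝ P {x | x ≠ 0} ∧ AnalyticOnNhd ℝ (dual P) {x | x ≠ 0} ∧
      (∀ x, P x ^ 2 = M x ^ 2 + (e / 2) ^ 2 * ‖x‖ ^ 2) := by
  have hd : 0 < e / 2 := half_pos he
  have h1 : ∀ x, |N x - reg (e / 2) M x| ≤ e * ‖x‖ := by
    intro x
    have h2 := hNM x
    have h3 := reg_close h' hd x
    have h4 := abs_add_le (N x - M x) (M x - reg (e / 2) M x)
    rw [sub_add_sub_cancel] at h4
    linarith
  have h2 : IsNorm (reg (e / 2) M) (a / 2) (b' + e / 2) := h.rebound (reg_isNorm h' hd) hea h1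
  refine ⟨reg (e / 2) M, _, h2, h1, reg_analytic h' hd hM, ?_, fun x => reg_sq M (e / 2) x⟩
  refine analytic_dual h2 (c := (e / 2) ^ 2) (by positivity) (reg_analytic h' hd hM) ?_
  have h3 : (fun x => reg (e / 2) M x ^ 2 - (e / 2) ^ 2 * ‖x‖ ^ 2) = fun x => M x ^ 2 := by
    funext x
    rw [reg_sq]
    ring
  rw [h3]
  exact sq_convex h'

theorem convex_less {f : H → ℝ} {c c' : ℝ} (hc : c ≤ c')
    (hf : ConvexOn ℝ Set.univ (fun x => f x - c' * ‖x‖ ^ 2)) :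
    ConvexOn ℝ Set.univ (fun x => f x - c * ‖x‖ ^ 2) := by
  have h1 : ConvexOn ℝ Set.univ (fun x : H => ‖x‖ ^ 2) :=
    sq_convex (a := 1) (b := 1) ⟨norm_add_le, fun r x => by rw [norm_smul, Real.norm_eq_abs], one_pos,
      one_pos, fun x => by rw [one_mul], fun x => by rw [one_mul]⟩
  have h2 := hf.add (h1.smul (sub_nonneg.2 hc))
  have h3 : (fun x => f x - c * ‖x‖ ^ 2)
      = (fun x => f x - c' * ‖x‖ ^ 2) + fun x => (c' - c) • ‖x‖ ^ 2 := by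
    funext x
    simp only [Pi.add_apply, smul_eq_mul]
    ring
  rw [h3]
  exact h2

theorem convex_more {f : H → ℝ} {c c' : ℝ} (hc : c' ≤ c)
    (hf : ConvexOn ℝ Set.univ (fun x => c' * ‖x‖ ^ 2 - f x)) :
    ConvexOn ℝ Set.univ (fun x => c * ‖x‖ ^ 2 - f x) := by
  have h1 : ConvexOn ℝ Set.univ (fun x => -f x - -c' * ‖x‖ ^ 2) := by
    have h2 : (fun x => -f x - -c' * ‖x‖ ^ 2) = fun x => c' * ‖x‖ ^ 2 - f x := by
      funext x
      ring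
    rw [h2]
    exact hf
  have h3 := convex_less (neg_le_neg hc) h1
  have h4 : (fun x => c * ‖x‖ ^ 2 - f x) = fun x => -f x - -c * ‖x‖ ^ 2 := by
    funext x
    ring
  rw [h4]
  exact h3

theorem final [CompleteSpace H] [TopologicalSpace.SeparableSpace H] {N : H → ℝ} {a b : ℝ}
    (h : IsNorm N a b) {e : ℝ} (he : 0 < e) :
    ∃ (L : H → ℝ) (a' b' c : ℝ), IsNorm L a' b' ∧ 0 < c ∧
      (∀ x, |N x - L x| ≤ e * ‖x‖) ∧ (∀ x, |dual N x - dual L x| ≤ e * ‖x‖) ∧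
      AnalyticOnNhd ℝ L {x | x ≠ 0} ∧ AnalyticOnNhd ℝ (dual L) {x | x ≠ 0} ∧
      ConvexOn ℝ Set.univ (fun x => L x ^ 2 - c * ‖x‖ ^ 2) ∧
      ConvexOn ℝ Set.univ (fun x => c⁻¹ * ‖x‖ ^ 2 - L x ^ 2) ∧
      ConvexOn ℝ Set.univ (fun x => dual L x ^ 2 - c * ‖x‖ ^ 2) ∧
      ConvexOn ℝ Set.univ (fun x => c⁻¹ * ‖x‖ ^ 2 - dual L x ^ 2) := by
  have ha := h.pos
  have hb := h.posb
  -- the error on the dual side
  obtain ⟨t, ht, ht1, ht2, ht3⟩ : ∃ t : ℝ, 0 < t ∧ t ≤ e ∧ t / (b⁻¹ * (b⁻¹ / 2)) ≤ e ∧ t ≤ b⁻¹ / 2 := by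
    refine ⟨min e (min (e * (b⁻¹ * (b⁻¹ / 2))) (b⁻¹ / 2)), ?_, min_le_left _ _, ?_, ?_⟩
    · exact lt_min he (lt_min (by positivity) (by positivity))
    · rw [div_le_iff₀ (by positivity)]
      exact (min_le_right _ _).trans (min_le_left _ _)
    · exact (min_le_right _ _).trans (min_le_right _ _)
  -- the error of the first step
  obtain ⟨s, hs, hs1, hs2⟩ : ∃ s : ℝ, 0 < s ∧ s ≤ a / 2 ∧ s / (a * (a / 2)) ≤ t / 2 := by
    refine ⟨min (a / 2) (t / 2 * (a * (a / 2))), ?_, min_le_left _ _, ?_⟩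
    · exact lt_min (by positivity) (by positivity)
    · rw [div_le_iff₀ (by positivity)]
      exact min_le_right _ _
  obtain ⟨M, hM1, hM2, ⟨a1, b1, ha1, hb1, hM3⟩, hM4, hM5⟩ :=
    Pool.Agent.Lib.MP_b414a3_an.GA.norm_main h.add h.smul ⟨a, b, ha, hb, fun x => ⟨h.lower x, h.upper x⟩⟩
      (half_pos hs)
  have hM : IsNorm M a1 b1 := ⟨hM1, hM2, ha1, hb1, fun x => (hM3 x).1, fun x => (hM3 x).2⟩
  obtain ⟨P, b2, hP, hP1, hP2, hP3, hP4⟩ := step h hM hs hs1 hM5 hM4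
  -- the dual side
  have hdN := h.dual
  have hdP := hP.dual
  have h1 : ∀ x, |dual N x - dual P x| ≤ t / 2 * ‖x‖ := fun x =>
    (dual_close h hP hs.le hP1 x).trans (mul_le_mul_of_nonneg_right hs2 (norm_nonneg x))
  obtain ⟨Q, b3, hQ, hQ1, hQ2, hQ3, hQ4⟩ := step hdN hdP ht ht3 h1 hP3
  have hcv1 : ConvexOn ℝ Set.univ (fun x => P x ^ 2 - (s / 2) ^ 2 * ‖x‖ ^ 2) := by
    have h3 : (fun x => P x ^ 2 - (s / 2) ^ 2 * ‖x‖ ^ 2) = fun x => M x ^ 2 := by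
      funext x
      rw [hP4]
      ring
    rw [h3]
    exact sq_convex hM
  have hcv2 := dual_smooth hP (by positivity) hcv1
  have hcv3 : ConvexOn ℝ Set.univ
      (fun x => (((s / 2) ^ 2)⁻¹ + (t / 2) ^ 2) * ‖x‖ ^ 2 - Q x ^ 2) := by
    have h3 : (fun x => (((s / 2) ^ 2)⁻¹ + (t / 2) ^ 2) * ‖x‖ ^ 2 - Q x ^ 2)
        = fun x => ((s / 2) ^ 2)⁻¹ * ‖x‖ ^ 2 - dual P x ^ 2 := by
      funext x
      rw [hQ4]
      ring
    rw [h3]
    exact hcv2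
  have hcv4 : ConvexOn ℝ Set.univ (fun x => Q x ^ 2 - (t / 2) ^ 2 * ‖x‖ ^ 2) := by
    have h3 : (fun x => Q x ^ 2 - (t / 2) ^ 2 * ‖x‖ ^ 2) = fun x => dual P x ^ 2 := by
      funext x
      rw [hQ4]
      ring
    rw [h3]
    exact sq_convex hdP
  have hdd : ∀ x, dual (dual N) x = N x := fun x => bidual h x
  have hQd : dual (dual Q) = Q := funext fun x => bidual hQ x
  obtain ⟨K, hK⟩ : ∃ K : ℝ, K = ((s / 2) ^ 2)⁻¹ + (t / 2) ^ 2 := ⟨_, rfl⟩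
  rw [← hK] at hcv3
  have hK0 : 0 < K := by
    rw [hK]
    positivity
  have hcv5 := dual_strong hQ hK0 hcv3
  have hcv6 := dual_smooth hQ (by positivity) hcv4
  obtain ⟨c, hc⟩ : ∃ c : ℝ, c = min K⁻¹ ((t / 2) ^ 2) := ⟨_, rfl⟩
  have hc0 : 0 < c := by
    rw [hc]
    exact lt_min (inv_pos.2 hK0) (by positivity)
  have hc1 : c ≤ K⁻¹ := hc ▸ min_le_left _ _
  have hc2 : c ≤ (t / 2) ^ 2 := hc ▸ min_le_right _ _
  have hc3 : K ≤ c⁻¹ := by
    rw [← one_div, le_div_iff₀ hc0]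
    calc K * c ≤ K * K⁻¹ := mul_le_mul_of_nonneg_left hc1 hK0.le
      _ = 1 := mul_inv_cancel₀ hK0.ne'
  have hc4 : ((t / 2) ^ 2)⁻¹ ≤ c⁻¹ := inv_anti₀ hc0 hc2
  refine ⟨dual Q, _, _, c, hQ.dual, hc0, ?_, ?_, hQ3, ?_, ?_, ?_, ?_, ?_⟩
  · intro x
    rw [← hdd x]
    refine (dual_close hdN hQ ht.le hQ1 x).trans (mul_le_mul_of_nonneg_right ?_ (norm_nonneg x))
    exact ht2
  · intro x
    rw [hQd]
    exact (hQ1 x).trans (mul_le_mul_of_nonneg_right ht1 (norm_nonneg x))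
  · rw [hQd]
    exact hQ2
  · exact convex_less hc1 hcv5
  · exact convex_more hc4 hcv6
  · rw [hQd]
    exact convex_less hc2 hcv4
  · rw [hQd]
    exact convex_more hc3 hcv3

end Pool.Agent.Lib.MP_b414a3_an.BD
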