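import Pool.Agent.Lib.MP_b414a3_an.BD.Defs

/-! MP_b414a3_an, board BD: a strongly midpoint convex function bounded below attains its minimum. -/

set_option autoImplicit false

namespace Pool.Agent.Lib.MP_b414a3_an.BD

open scoped InnerProductSpace Topology Gradient

variable {H : Type*} [NormedAddCommGroup H] [InnerProductSpace ℝ H]

theorem exists_min [CompleteSpace H] {g : H → ℝ} {c : ℝ} (hc : 0 < c) (hg : Continuous g)
    (hm : ∀ x y, g ((1 / 2 : ℝ) • (x + y)) ≤ (g x + g y) / 2 - c * ‖x - y‖ ^ 2)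
    (hb : BddBelow (Set.range g)) : ∃ x, ∀ z, g x ≤ g z := by
  have hinf : ∀ z, (⨅ x, g x) ≤ g z := fun z => ciInf_le hb z
  have hex : ∀ n : ℕ, ∃ x, g x < (⨅ x, g x) + 1 / ((n : ℝ) + 1) := by
    intro n
    apply exists_lt_of_ciInf_lt
    have : (0 : ℝ) < 1 / ((n : ℝ) + 1) := by positivity
    linarith
  choose s hs using hex
  have hdist : ∀ i j N : ℕ, N ≤ i → N ≤ j →
      dist (s i) (s j) ≤ Real.sqrt (c⁻¹ * (1 / ((N : ℝ) + 1))) := by
    intro i j N hi hj
    have h1 := hm (s i) (s j)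
    have h2 := hinf ((1 / 2 : ℝ) • (s i + s j))
    have h3 := hs i
    have h4 := hs j
    have h5 : 1 / ((i : ℝ) + 1) ≤ 1 / ((N : ℝ) + 1) := by
      apply one_div_le_one_div_of_le (by positivity)
      have : (N : ℝ) ≤ i := by exact_mod_cast hi
      linarith
    have h6 : 1 / ((j : ℝ) + 1) ≤ 1 / ((N : ℝ) + 1) := by
      apply one_div_le_one_div_of_le (by positivity)
      have : (N : ℝ) ≤ j := by exact_mod_cast hj
      linarith
    have h7 : c * ‖s i - s j‖ ^ 2 ≤ 1 / ((N : ℝ) + 1) := by linarith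
    rw [dist_eq_norm]
    apply Real.le_sqrt_of_sq_le
    rw [← div_eq_inv_mul, le_div_iff₀ hc]
    linarith
  have hlim : Filter.Tendsto (fun N : ℕ => Real.sqrt (c⁻¹ * (1 / ((N : ℝ) + 1))))
      Filter.atTop (𝓝 0) := by
    have h1 := (tendsto_one_div_add_atTop_nhds_zero_nat (𝕜 := ℝ)).const_mul c⁻¹
    rw [mul_zero] at h1
    have h2 := (Real.continuous_sqrt.tendsto 0).comp h1
    rw [Real.sqrt_zero] at h2
    exact h2
  have hcau : CauchySeq s := cauchySeq_of_le_tendsto_0 _ hdist hlim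
  obtain ⟨x, hx⟩ := cauchySeq_tendsto_of_complete hcau
  refine ⟨x, fun z => ?_⟩
  have h1 : Filter.Tendsto (fun n => g (s n)) Filter.atTop (𝓝 (g x)) :=
    (hg.tendsto x).comp hx
  have h2 : Filter.Tendsto (fun n : ℕ => (⨅ x, g x) + 1 / ((n : ℝ) + 1)) Filter.atTop
      (𝓝 ((⨅ x, g x) + 0)) :=
    (tendsto_one_div_add_atTop_nhds_zero_nat (𝕜 := ℝ)).const_add _
  have h3 : g x ≤ (⨅ x, g x) + 0 := le_of_tendsto_of_tendsto' h1 h2 fun n => (hs n).le
  rw [add_zero] at h3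
  exact h3.trans (hinf z)

end Pool.Agent.Lib.MP_b414a3_an.BD
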