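import Pool.Agent.Lib.MP_b414a3_an.BD.Defs

/-! Board BD, job J4: the square of the dual norm as a conjugate function. -/

set_option autoImplicit false

namespace Pool.Agent.Lib.MP_b414a3_an.BD

open scoped InnerProductSpace Topology Gradient

variable {H : Type*} [NormedAddCommGroup H] [InnerProductSpace ℝ H]

theorem isLUB_dual {N : H → ℝ} {a b : ℝ} (h : IsNorm N a b) (y : H) :
    IsLUB (Set.range fun x : H => 2 * ⟪x, y⟫_ℝ - N x ^ 2) (dual N y ^ 2) := by
  constructor
  · rintro t ⟨x, rfl⟩
    have h1 := h.inner_le x y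
    show 2 * ⟪x, y⟫_ℝ - N x ^ 2 ≤ dual N y ^ 2
    nlinarith [sq_nonneg (N x - dual N y)]
  · intro M hM
    have hD := h.dual_nonneg y
    rcases hD.eq_or_lt with hD0 | hD0
    · have h1 := hM ⟨0, rfl⟩
      have h2 : 2 * ⟪(0 : H), y⟫_ℝ - N 0 ^ 2 = 0 := by
        rw [h.zero, inner_zero_left]; norm_num
      rw [← hD0]
      have h3 : (2 * ⟪(0 : H), y⟫_ℝ - N 0 ^ 2) ≤ M := h1
      rw [h2] at h3
      simpa using h3
    · set D := dual N y with hDdef
      have key : D ≤ (M + D ^ 2) / (2 * D) := by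
        refine h.dual_le fun x hx => ?_
        have h1 : 2 * ⟪D • x, y⟫_ℝ - N (D • x) ^ 2 ≤ M := hM ⟨D • x, rfl⟩
        rw [real_inner_smul_left, h.smul, abs_of_pos hD0] at h1
        rw [le_div_iff₀ (by positivity)]
        have h2 : N x ^ 2 ≤ 1 := by
          have := h.nonneg x
          nlinarith
        have h3 : (D * N x) ^ 2 ≤ D ^ 2 := by
          rw [mul_pow]
          nlinarith [sq_nonneg D]
        nlinarith
      rw [le_div_iff₀ (by positivity)] at key
      nlinarith

end Pool.Agent.Lib.MP_b414a3_an.BD
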